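import Mathlib

set_option autoImplicit false

/-! Hyperplane covers of the simplex grid `{x : I → ℕ | ∑ x = m}` (homogeneous form). -/

namespace Pool.Agent.H88.HC

open Finset

variable {α ι : Type*} [DecidableEq α]

/-- the linear form with coefficients `a` at the point `x`, summed over `I`. -/
noncomputable def lin (I : Finset α) (a : α → ℝ) (x : α → ℕ) : ℝ := ∑ i ∈ I, a i * (x i : ℝ)

/-- `a` is constant on `I`. -/
def IsConst (I : Finset α) (a : α → ℝ) : Prop := ∀ i ∈ I, ∀ j ∈ I, a i = a j

omit [DecidableEq α] in
theorem lin_const {I : Finset α} {a : α → ℝ} (h : IsConst I a) {k : α} (hk : k ∈ I)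
    (x : α → ℕ) : lin I a x = a k * ((∑ i ∈ I, x i : ℕ) : ℝ) := by
  unfold lin
  rw [Nat.cast_sum, mul_sum]
  refine sum_congr rfl fun i hi => ?_
  rw [h i hi k hk]

omit [DecidableEq α] in
theorem lin_congr {I : Finset α} {a : α → ℝ} {x y : α → ℕ} (h : ∀ i ∈ I, x i = y i) :
    lin I a x = lin I a y := by
  unfold lin
  refine sum_congr rfl fun i hi => ?_
  rw [h i hi]

theorem lin_union {S T : Finset α} (h : Disjoint S T) (a : α → ℝ) (x : α → ℕ) :
    lin (S ∪ T) a x = lin S a x + lin T a x := by
  unfold lin
  exact sum_union h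

/-- one-dimensional grid: fewer than `2(m+1)` points leave a point covered at most once. -/
theorem base (I : Finset α) (hI : I.card = 2) (m : ℕ) (F : Finset ι) (a : ι → α → ℝ) (c : ι → ℝ)
    (hF : ∀ h ∈ F, ¬ IsConst I (a h)) (hc : F.card < 2 * (m + 1)) :
    ∃ x : α → ℕ, ∑ i ∈ I, x i = m ∧
      ∀ G ⊆ F, (∀ h ∈ G, lin I (a h) x = c h) → G.card ≤ 1 := by
  classical
  obtain ⟨i, j, hij, rfl⟩ := card_eq_two.1 hI
  by_contra hcon
  push Not at hcon
  set pt : ℕ → α → ℕ := fun t k => if k = i then t else m - t with hpt
  have hsum : ∀ t ∈ range (m + 1), ∑ k ∈ ({i, j} : Finset α), pt t k = m := by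
    intro t ht
    rw [mem_range] at ht
    rw [sum_pair hij]
    simp only [hpt, if_true, if_neg (Ne.symm hij)]
    omega
  have hch : ∀ t ∈ range (m + 1), ∃ G ⊆ F, (∀ h ∈ G, lin {i, j} (a h) (pt t) = c h) ∧
      1 < G.card := fun t ht => hcon (pt t) (hsum t ht)
  choose! G hGF hG hGc using hch
  have hdisj : ∀ t ∈ range (m + 1), ∀ s ∈ range (m + 1), t ≠ s → Disjoint (G t) (G s) := by
    intro t ht s hs hts
    rw [disjoint_left]
    intro h h1 h2
    have e1 := hG t ht h h1
    have e2 := hG s hs h h2
    apply hF h (hGF t ht h1)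
    unfold lin at e1 e2
    rw [sum_pair hij] at e1 e2
    simp only [hpt, if_true, if_neg (Ne.symm hij)] at e1 e2
    rw [mem_range] at ht hs
    rw [Nat.cast_sub (by omega)] at e1 e2
    have e3 : (a h i - a h j) * ((t : ℝ) - s) = 0 := by linear_combination e1 - e2
    have hts' : ((t : ℝ) - s) ≠ 0 := by
      rw [sub_ne_zero]
      exact_mod_cast hts
    have e4 : a h i = a h j := by
      have := (mul_eq_zero.1 e3).resolve_right hts'
      linarith
    intro k hk l hl
    simp only [mem_insert, mem_singleton] at hk hl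
    rcases hk with rfl | rfl <;> rcases hl with rfl | rfl <;> simp [e4]
  have h1 : ((range (m + 1)).biUnion G).card = ∑ t ∈ range (m + 1), (G t).card :=
    card_biUnion hdisj
  have h2 : ((range (m + 1)).biUnion G).card ≤ F.card :=
    card_le_card (biUnion_subset.2 hGF)
  have h3 : ∑ t ∈ range (m + 1), 2 ≤ ∑ t ∈ range (m + 1), (G t).card :=
    sum_le_sum fun t ht => hGc t ht
  rw [sum_const, card_range, smul_eq_mul] at h3
  omega

/-- arithmetic: number of layers where one of the two greedy choices works. -/
theorem layers (n u v x w : ℕ) (hN : u + v + x + w < 2 * n)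
    (hw : ((Finset.range n).filter (fun s =>
      (u < 2 * (n - s) ∧ v + x < 2 * (s + 1)) ∨ (v < 2 * (s + 1) ∧ u + x < 2 * (n - s)))).card ≤ w) :
    x + 1 ≤ w := by
  classical
  by_cases hgap : (v + x) / 2 ≤ n - (u + x) / 2
  · have hsub : Finset.Ico (v / 2) (n - u / 2) ⊆ (Finset.range n).filter (fun s =>
        (u < 2 * (n - s) ∧ v + x < 2 * (s + 1)) ∨ (v < 2 * (s + 1) ∧ u + x < 2 * (n - s))) := by
      intro s hs
      rw [Finset.mem_Ico] at hs
      rw [Finset.mem_filter, Finset.mem_range]
      omega
    have := Finset.card_le_card hsub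
    rw [Nat.card_Ico] at this
    omega
  · have hsub : Finset.Ico (v / 2) (n - (u + x) / 2) ∪ Finset.Ico ((v + x) / 2) (n - u / 2) ⊆
        (Finset.range n).filter (fun s =>
        (u < 2 * (n - s) ∧ v + x < 2 * (s + 1)) ∨ (v < 2 * (s + 1) ∧ u + x < 2 * (n - s))) := by
      intro s hs
      rw [Finset.mem_union, Finset.mem_Ico, Finset.mem_Ico] at hs
      rw [Finset.mem_filter, Finset.mem_range]
      omega
    have := Finset.card_le_card hsub
    rw [Finset.card_union_of_disjoint, Nat.card_Ico, Nat.card_Ico] at this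
    · omega
    · rw [Finset.disjoint_left]
      intro s h1 h2
      rw [Finset.mem_Ico] at h1 h2
      omega

/-- the conclusion for one index set: fewer than `2(m+1)` hyperplanes leave a grid point on at
most `b` of them. -/
def Good (ι : Type*) (I : Finset α) (b : ℕ) : Prop :=
  ∀ (m : ℕ) (F : Finset ι) (a : ι → α → ℝ) (c : ι → ℝ), (∀ h ∈ F, ¬ IsConst I (a h)) →
    F.card < 2 * (m + 1) → ∃ x : α → ℕ, ∑ i ∈ I, x i = m ∧
      ∀ G ⊆ F, (∀ h ∈ G, lin I (a h) x = c h) → G.card ≤ b

open Classical in
/-- the counting inequality for one pair `S` of coordinates. -/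
theorem pair_ineq (S T : Finset α) (hST : Disjoint S T) (hS : S.card = 2) {b : ℕ}
    (hT : 0 < T.card) (ih : Good ι T b) (m : ℕ) (F : Finset ι) (a : ι → α → ℝ) (c : ι → ℝ)
    (hF : ∀ h ∈ F, ¬ IsConst (S ∪ T) (a h)) (hc : F.card < 2 * (m + 1))
    (hcon : ∀ x : α → ℕ, ∑ i ∈ S ∪ T, x i = m →
      ∃ G ⊆ F, (∀ h ∈ G, lin (S ∪ T) (a h) x = c h) ∧ b + 1 < G.card) :
    (F.filter (fun h => ¬ IsConst S (a h) ∧ ¬ IsConst T (a h))).card + 1 ≤
      (F.filter (fun h => IsConst S (a h) ∧ IsConst T (a h))).card := by
  obtain ⟨k, hk⟩ := card_pos.1 hT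
  obtain ⟨i, hi⟩ := card_pos.1 (by omega : 0 < S.card)
  set W := F.filter (fun h => IsConst S (a h) ∧ IsConst T (a h)) with hW
  set U := F.filter (fun h => IsConst S (a h) ∧ ¬ IsConst T (a h)) with hU
  set V := F.filter (fun h => ¬ IsConst S (a h) ∧ IsConst T (a h)) with hV
  set X := F.filter (fun h => ¬ IsConst S (a h) ∧ ¬ IsConst T (a h)) with hX
  have hcard : U.card + V.card + X.card + W.card = F.card := by
    have h1 := card_filter_add_card_filter_not (s := F) (fun h => IsConst S (a h))
    have h2 := card_filter_add_card_filter_not (s := F.filter (fun h => IsConst S (a h)))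
      (fun h => IsConst T (a h))
    have h3 := card_filter_add_card_filter_not (s := F.filter (fun h => ¬ IsConst S (a h)))
      (fun h => IsConst T (a h))
    rw [filter_filter, filter_filter] at h2 h3
    rw [← hW, ← hU] at h2
    rw [← hV, ← hX] at h3
    omega
  have hVX : (F.filter (fun h => ¬ IsConst S (a h))).card = V.card + X.card := by
    have h3 := card_filter_add_card_filter_not (s := F.filter (fun h => ¬ IsConst S (a h)))
      (fun h => IsConst T (a h))
    rw [filter_filter, filter_filter] at h3
    rw [← hV, ← hX] at h3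
    omega
  have hUX : (F.filter (fun h => ¬ IsConst T (a h))).card = U.card + X.card := by
    have h3 := card_filter_add_card_filter_not (s := F.filter (fun h => ¬ IsConst T (a h)))
      (fun h => IsConst S (a h))
    rw [filter_filter, filter_filter] at h3
    have e1 : F.filter (fun h => ¬ IsConst T (a h) ∧ IsConst S (a h)) = U := by
      rw [hU]; exact filter_congr fun h _ => and_comm
    have e2 : F.filter (fun h => ¬ IsConst T (a h) ∧ ¬ IsConst S (a h)) = X := by
      rw [hX]; exact filter_congr fun h _ => and_comm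
    rw [e1, e2] at h3
    omega
  -- every good layer is contained in a hyperplane of `W`
  have key : ∀ s ∈ (Finset.range (m + 1)).filter (fun s =>
      (U.card < 2 * (m + 1 - s) ∧ V.card + X.card < 2 * (s + 1)) ∨
      (V.card < 2 * (s + 1) ∧ U.card + X.card < 2 * (m + 1 - s))),
      ∃ h ∈ W, a h i * s + a h k * ((m - s : ℕ) : ℝ) = c h := by
    intro s hs
    rw [mem_filter, mem_range] at hs
    obtain ⟨hsm, hs⟩ := hs
    by_contra hno
    push Not at hno
    have hsplit : ∃ y z : α → ℕ, ∑ j ∈ S, y j = s ∧ ∑ j ∈ T, z j = m - s ∧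
        ∀ G ⊆ F, (∀ h ∈ G, lin S (a h) y + lin T (a h) z = c h) →
          (∀ h ∈ G, h ∉ W) → G.card ≤ b + 1 := by
      rcases hs with ⟨h1, h2⟩ | ⟨h1, h2⟩
      · obtain ⟨z, hz, hz2⟩ := ih (m - s) U a (fun h => c h - a h i * s)
          (fun h hh => (mem_filter.1 hh).2.2) (by omega)
        obtain ⟨y, hy, hy2⟩ := base S hS s (F.filter (fun h => ¬ IsConst S (a h))) a
          (fun h => c h - lin T (a h) z) (fun h hh => (mem_filter.1 hh).2) (by omega)
        refine ⟨y, z, hy, hz, fun G hG hGc hGW => ?_⟩
        have g1 := card_filter_add_card_filter_not (s := G) (fun h => IsConst S (a h))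
        have g2 : (G.filter (fun h => ¬ IsConst S (a h))).card ≤ 1 := by
          refine hy2 _ (filter_subset_filter _ hG) fun h hh => ?_
          have := hGc h (mem_filter.1 hh).1
          linarith
        have g3 : (G.filter (fun h => IsConst S (a h))).card ≤ b := by
          refine hz2 _ (fun h hh => ?_) fun h hh => ?_
          · rw [mem_filter] at hh
            rw [hU, mem_filter]
            refine ⟨hG hh.1, hh.2, fun hT' => hGW h hh.1 ?_⟩
            rw [hW, mem_filter]
            exact ⟨hG hh.1, hh.2, hT'⟩
          · rw [mem_filter] at hh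
            have e := hGc h hh.1
            rw [lin_const hh.2 hi, hy] at e
            linarith
        omega
      · obtain ⟨y, hy, hy2⟩ := base S hS s V a (fun h => c h - a h k * ((m - s : ℕ) : ℝ))
          (fun h hh => (mem_filter.1 hh).2.1) (by omega)
        obtain ⟨z, hz, hz2⟩ := ih (m - s) (F.filter (fun h => ¬ IsConst T (a h))) a
          (fun h => c h - lin S (a h) y) (fun h hh => (mem_filter.1 hh).2) (by omega)
        refine ⟨y, z, hy, hz, fun G hG hGc hGW => ?_⟩
        have g1 := card_filter_add_card_filter_not (s := G) (fun h => IsConst T (a h))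
        have g2 : (G.filter (fun h => ¬ IsConst T (a h))).card ≤ b := by
          refine hz2 _ (filter_subset_filter _ hG) fun h hh => ?_
          have := hGc h (mem_filter.1 hh).1
          linarith
        have g3 : (G.filter (fun h => IsConst T (a h))).card ≤ 1 := by
          refine hy2 _ (fun h hh => ?_) fun h hh => ?_
          · rw [mem_filter] at hh
            rw [hV, mem_filter]
            refine ⟨hG hh.1, fun hS' => hGW h hh.1 ?_, hh.2⟩
            rw [hW, mem_filter]
            exact ⟨hG hh.1, hS', hh.2⟩
          · rw [mem_filter] at hh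
            have e := hGc h hh.1
            rw [lin_const hh.2 hk, hz] at e
            linarith
        omega
    obtain ⟨y, z, hy, hz, hyz⟩ := hsplit
    set x : α → ℕ := fun j => if j ∈ S then y j else z j with hx
    have hxS : ∀ j ∈ S, x j = y j := fun j hj => by simp [hx, hj]
    have hxT : ∀ j ∈ T, x j = z j := fun j hj => by
      have : j ∉ S := fun h => disjoint_left.1 hST h hj
      simp [hx, this]
    have hsum : ∑ j ∈ S ∪ T, x j = m := by
      rw [sum_union hST, sum_congr rfl hxS, sum_congr rfl hxT, hy, hz]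
      omega
    obtain ⟨G, hG, hGc, hGb⟩ := hcon x hsum
    have hlin : ∀ h, lin (S ∪ T) (a h) x = lin S (a h) y + lin T (a h) z := by
      intro h
      rw [lin_union hST, lin_congr hxS, lin_congr hxT]
    have := hyz G hG (fun h hh => by rw [← hlin h]; exact hGc h hh) (fun h hh hhW => by
      have hw := (mem_filter.1 hhW).2
      apply hno h hhW
      have e := hGc h hh
      rw [hlin h, lin_const hw.1 hi, lin_const hw.2 hk, hy, hz] at e
      exact e)
    omega
  have hle : ((Finset.range (m + 1)).filter (fun s =>
      (U.card < 2 * (m + 1 - s) ∧ V.card + X.card < 2 * (s + 1)) ∨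
      (V.card < 2 * (s + 1) ∧ U.card + X.card < 2 * (m + 1 - s)))).card ≤ W.card := by
    rcases isEmpty_or_nonempty ι with hem | hne
    · rw [eq_empty_of_forall_notMem (s := filter _ (Finset.range (m + 1)))
        (fun s hs => hem.elim (key s hs).choose), card_empty]
      exact Nat.zero_le _
    choose! g hgW hg using key
    refine card_le_card_of_injOn g (fun s hs => hgW s hs) ?_
    intro s hs t ht hst
    have e1 := hg s hs
    have e2 := hg t ht
    rw [← hst] at e2
    have hs' : s < m + 1 := by
      have := (mem_filter.1 (mem_coe.1 hs)).1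
      exact mem_range.1 this
    have ht' : t < m + 1 := by
      have := (mem_filter.1 (mem_coe.1 ht)).1
      exact mem_range.1 this
    rw [Nat.cast_sub (by omega)] at e1 e2
    have e3 : (a (g s) i - a (g s) k) * ((s : ℝ) - t) = 0 := by linear_combination e1 - e2
    rcases mul_eq_zero.1 e3 with e4 | e4
    · exfalso
      have hw := mem_filter.1 (hgW s hs)
      apply hF (g s) hw.1
      have e5 : a (g s) i = a (g s) k := by linarith
      have hall : ∀ j ∈ S ∪ T, a (g s) j = a (g s) i := by
        intro j hj
        rcases mem_union.1 hj with hj | hj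
        · exact hw.2.1 j hj i hi
        · rw [hw.2.2 j hj k hk, e5]
      intro j hj l hl
      rw [hall j hj, hall l hl]
    · have : (s : ℝ) = t := by linarith
      exact_mod_cast this
  exact layers (m + 1) U.card V.card X.card W.card (by omega) hle

/-- **Homogeneous form.** Fewer than `2(m+1)` hyperplanes leave a point of the simplex grid with
`2b` coordinates on at most `b` of them. -/
theorem good (b : ℕ) (hb : 1 ≤ b) : ∀ I : Finset α, I.card = 2 * b → Good ι I b := by
  classical
  induction b, hb using Nat.le_induction with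
  | base =>
    intro I hI m F a c hF hc
    exact base I (by omega) m F a c hF hc
  | succ b hb ih =>
    intro I hI m F a c hF hc
    by_contra hcon
    push Not at hcon
    -- four distinct coordinates
    obtain ⟨J, hJI, hJ⟩ := exists_subset_card_eq (show 4 ≤ I.card by omega)
    obtain ⟨p, q, r, s, hpq, hpr, hps, hqr, hqs, hrs, rfl⟩ := card_eq_four.1 hJ
    have hp : p ∈ I := hJI (by simp)
    have hq : q ∈ I := hJI (by simp)
    have hr : r ∈ I := hJI (by simp)
    have hs : s ∈ I := hJI (by simp)
    have main : ∀ u v : α, u ∈ I → v ∈ I → u ≠ v →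
        (F.filter (fun h => ¬ IsConst {u, v} (a h) ∧ ¬ IsConst (I \ {u, v}) (a h))).card + 1 ≤
        (F.filter (fun h => IsConst {u, v} (a h) ∧ IsConst (I \ {u, v}) (a h))).card := by
      intro u v hu hv huv
      have hsub : ({u, v} : Finset α) ⊆ I := by
        intro j hj
        simp only [mem_insert, mem_singleton] at hj
        rcases hj with rfl | rfl <;> assumption
      have hcardT : (I \ {u, v}).card = 2 * b := by
        rw [card_sdiff_of_subset hsub, card_pair huv]
        omega
      have hun : {u, v} ∪ (I \ {u, v}) = I := union_sdiff_of_subset hsub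
      have := pair_ineq {u, v} (I \ {u, v}) disjoint_sdiff (card_pair huv) (b := b)
        (by omega) (ih _ hcardT) m F a c (by rw [hun]; exact hF) hc
        (by
          rw [hun]
          intro x hx
          obtain ⟨G, hG, hGc, hGb⟩ := hcon x hx
          exact ⟨G, hG, hGc, hGb⟩)
      convert this using 3
    have h1 := main p q hp hq hpq
    have h2 := main p r hp hr hpr
    have cross : ∀ u v w z : α, u ∈ I → v ∈ I → w ∈ I → z ∈ I → u ≠ v → u ≠ w → v ≠ w →
        z ≠ u → z ≠ v → z ≠ w →
        (F.filter (fun h => IsConst {u, v} (a h) ∧ IsConst (I \ {u, v}) (a h))).card ≤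
        (F.filter (fun h => ¬ IsConst {u, w} (a h) ∧ ¬ IsConst (I \ {u, w}) (a h))).card := by
      intro u v w z hu hv hw hz huv huw hvw hzu hzv hzw
      refine card_le_card fun h hh => ?_
      rw [mem_filter] at hh ⊢
      obtain ⟨hhF, c1, c2⟩ := hh
      have e1 : a h u = a h v := c1 u (by simp) v (by simp)
      have e2 : a h w = a h z := c2 w (by simp [hw, Ne.symm huw, Ne.symm hvw]) z
        (by simp [hz, hzu, hzv])
      have hne : a h u ≠ a h w := by
        intro e3
        apply hF h hhF
        have hall : ∀ j ∈ I, a h j = a h u := by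
          intro j hj
          by_cases hjS : j ∈ ({u, v} : Finset α)
          · exact c1 j hjS u (by simp)
          · rw [e3]
            exact c2 j (mem_sdiff.2 ⟨hj, hjS⟩) w (by simp [hw, Ne.symm huw, Ne.symm hvw])
        intro j hj l hl
        rw [hall j hj, hall l hl]
      refine ⟨hhF, fun c3 => hne (c3 u (by simp) w (by simp)), fun c3 => ?_⟩
      have e4 := c3 v (by simp [hv, Ne.symm huv, hvw]) z (by simp [hz, hzu, hzw])
      apply hne
      rw [e1, e4, e2]
    have h3 := cross p q r s hp hq hr hs hpq hpr hqr (Ne.symm hps) (Ne.symm hqs) (Ne.symm hrs)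
    have h4 := cross p r q s hp hr hq hs hpr hpq (Ne.symm hqr) (Ne.symm hps) (Ne.symm hrs)
      (Ne.symm hqs)
    omega

end Pool.Agent.H88.HC
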